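import Pool.Agent.W792.WA.Stm
import Pool.Agent.W74.WA.Ql

/-!
# WA-FREEL: asymptotic freeness for local operators
-/

set_option autoImplicit false

namespace Pool.Agent.W18.WA.Freel

open MeasureTheory Pool.Agent.W792.LL Pool.Agent.W792.WA
open Pool.Agent.W74.WA.QL (mem_bx dl_apply expand loc_nonneg opr_coef loc_trig loc_mul loc_meas)

variable {d : ℕ}

/-- Bounded measurable functions of the configuration. -/
def BM (f : ((Fin d → ℤ) → ℝ) → ℂ) : Prop := Measurable f ∧ ∃ B : ℝ, ∀ v, ‖f v‖ ≤ B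

lemma BM.add {f g : ((Fin d → ℤ) → ℝ) → ℂ} (hf : BM f) (hg : BM g) : BM (fun v => f v + g v) := by
  obtain ⟨hf1, A, hA⟩ := hf
  obtain ⟨hg1, B, hB⟩ := hg
  exact ⟨hf1.add hg1, A + B, fun v => (norm_add_le _ _).trans (add_le_add (hA v) (hB v))⟩

lemma BM.sub {f g : ((Fin d → ℤ) → ℝ) → ℂ} (hf : BM f) (hg : BM g) : BM (fun v => f v - g v) := by
  obtain ⟨hf1, A, hA⟩ := hf
  obtain ⟨hg1, B, hB⟩ := hg
  exact ⟨hf1.sub hg1, A + B, fun v => (norm_sub_le _ _).trans (add_le_add (hA v) (hB v))⟩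

lemma BM.mul {f g : ((Fin d → ℤ) → ℝ) → ℂ} (hf : BM f) (hg : BM g) : BM (fun v => f v * g v) := by
  obtain ⟨hf1, A, hA⟩ := hf
  obtain ⟨hg1, B, hB⟩ := hg
  refine ⟨hf1.mul hg1, A * B, fun v => ?_⟩
  rw [norm_mul]
  exact mul_le_mul (hA v) (hB v) (norm_nonneg _) ((norm_nonneg _).trans (hA v))

lemma BM.const (c : ℂ) : BM (d := d) (fun _ => c) := ⟨measurable_const, ‖c‖, fun _ => le_rfl⟩

lemma BM.sum {ι : Type} (s : Finset ι) (f : ι → ((Fin d → ℤ) → ℝ) → ℂ) (h : ∀ i ∈ s, BM (f i)) :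
    BM (fun v => ∑ i ∈ s, f i v) := by
  classical
  induction s using Finset.induction_on with
  | empty => simpa using BM.const 0
  | insert a s ha ih =>
    simp only [Finset.sum_insert ha]
    exact (h a (Finset.mem_insert_self _ _)).add
      (ih fun i hi => h i (Finset.mem_insert_of_mem hi))

lemma BM.int {f : ((Fin d → ℤ) → ℝ) → ℂ} (hf : BM f)
    (μ : Measure ((Fin d → ℤ) → ℝ)) [IsProbabilityMeasure μ] : Integrable f μ := by
  obtain ⟨h1, B, hB⟩ := hf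
  exact Integrable.of_bound h1.aestronglyMeasurable B (Filter.Eventually.of_forall hB)

lemma BM.int2 {f : ((Fin d → ℤ) → ℝ) → ℂ} (hf : BM f)
    (μ : Measure ((Fin d → ℤ) → ℝ)) [IsProbabilityMeasure μ] :
    Integrable (fun v => ‖f v‖ ^ 2) μ := by
  obtain ⟨h1, B, hB⟩ := hf
  refine Integrable.of_bound (h1.norm.pow_const 2).aestronglyMeasurable (B ^ 2)
    (Filter.Eventually.of_forall fun v => ?_)
  rw [Real.norm_of_nonneg (by positivity)]
  exact pow_le_pow_left₀ (norm_nonneg _) (hB v) 2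

/-- The mixed configuration. -/
def mix (B : Finset (Fin d → ℤ)) (v' v : (Fin d → ℤ) → ℝ) : (Fin d → ℤ) → ℝ :=
  fun z => if z ∈ B then v' z else v z

lemma meas_mix (B : Finset (Fin d → ℤ)) :
    Measurable (fun p : ((Fin d → ℤ) → ℝ) × ((Fin d → ℤ) → ℝ) => mix B p.1 p.2) := by
  rw [measurable_pi_iff]
  intro z
  unfold mix
  by_cases hz : z ∈ B
  · simp only [hz, if_true]
    exact (measurable_pi_apply z).comp measurable_fst
  · simp only [hz, if_false]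
    exact (measurable_pi_apply z).comp measurable_snd

lemma map_mix (ν : Measure ℝ) [IsProbabilityMeasure ν] (B : Finset (Fin d → ℤ)) :
    ((Pn ν (Fin d → ℤ)).prod (Pn ν (Fin d → ℤ))).map (fun p => mix B p.1 p.2) =
      Pn ν (Fin d → ℤ) := by
  conv_rhs => unfold Pn
  refine Measure.eq_infinitePi _ fun s t ht => ?_
  rw [Measure.map_apply (meas_mix B) (MeasurableSet.pi s.countable_toSet fun i _ => ht i)]
  have h1 : (fun p : ((Fin d → ℤ) → ℝ) × ((Fin d → ℤ) → ℝ) => mix B p.1 p.2) ⁻¹'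
      (Set.pi (s : Set (Fin d → ℤ)) t) =
      (Set.pi ((s.filter fun z => z ∈ B : Finset (Fin d → ℤ)) : Set (Fin d → ℤ)) t) ×ˢ
      (Set.pi ((s.filter fun z => z ∉ B : Finset (Fin d → ℤ)) : Set (Fin d → ℤ)) t) := by
    ext ⟨v', v⟩
    simp only [Set.mem_preimage, Set.mem_pi, Set.mem_prod, Finset.coe_filter, Set.mem_ofPred_eq,
      mix, Finset.mem_coe]
    constructor
    · intro h
      refine ⟨fun z hz => ?_, fun z hz => ?_⟩
      · have := h z hz.1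
        rwa [if_pos hz.2] at this
      · have := h z hz.1
        rwa [if_neg hz.2] at this
    · rintro ⟨h1, h2⟩ z hz
      by_cases hB : z ∈ B
      · rw [if_pos hB]
        exact h1 z ⟨hz, hB⟩
      · rw [if_neg hB]
        exact h2 z ⟨hz, hB⟩
  rw [h1, Measure.prod_prod]
  unfold Pn
  rw [Measure.infinitePi_pi _ fun i _ => ht i, Measure.infinitePi_pi _ fun i _ => ht i]
  exact Finset.prod_filter_mul_prod_filter_not s _ _

lemma avg_def (ν : Measure ℝ) [IsProbabilityMeasure ν] (B : Finset (Fin d → ℤ))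
    (f : ((Fin d → ℤ) → ℝ) → ℂ) (v : (Fin d → ℤ) → ℝ) :
    avg ν B f v = ∫ v', f (mix B v' v) ∂(Pn ν (Fin d → ℤ)) := rfl

lemma avg_bm (ν : Measure ℝ) [IsProbabilityMeasure ν] (B : Finset (Fin d → ℤ))
    {f : ((Fin d → ℤ) → ℝ) → ℂ} (hf : BM f) : BM (avg ν B f) := by
  obtain ⟨h1, A, hA⟩ := hf
  constructor
  · have h2 : StronglyMeasurable (fun p : ((Fin d → ℤ) → ℝ) × ((Fin d → ℤ) → ℝ) =>
        f (mix B p.2 p.1)) :=
      (h1.comp ((meas_mix B).comp measurable_swap)).stronglyMeasurable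
    exact (h2.integral_prod_right (ν := Pn ν (Fin d → ℤ))).measurable
  · refine ⟨A, fun v => ?_⟩
    rw [avg_def]
    have := norm_integral_le_of_norm_le_const (μ := Pn ν (Fin d → ℤ))
      (f := fun v' => f (mix B v' v)) (Filter.Eventually.of_forall fun v' => hA _)
    simpa using this

lemma int_avg (ν : Measure ℝ) [IsProbabilityMeasure ν] (B : Finset (Fin d → ℤ))
    {f : ((Fin d → ℤ) → ℝ) → ℂ} (hf : BM f) :
    ∫ v, avg ν B f v ∂(Pn ν (Fin d → ℤ)) = ∫ v, f v ∂(Pn ν (Fin d → ℤ)) := by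
  conv_rhs => rw [← map_mix ν B]
  rw [integral_map (meas_mix B).aemeasurable hf.1.aestronglyMeasurable]
  have hint : Integrable (fun p : ((Fin d → ℤ) → ℝ) × ((Fin d → ℤ) → ℝ) => f (mix B p.1 p.2))
      ((Pn ν (Fin d → ℤ)).prod (Pn ν (Fin d → ℤ))) := by
    obtain ⟨h1, A, hA⟩ := hf
    exact Integrable.of_bound (h1.comp (meas_mix B)).aestronglyMeasurable A
      (Filter.Eventually.of_forall fun _ => hA _)
  rw [integral_prod_symm _ hint]
  rfl

/-! ### functions of bounded degree -/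

lemma dg_ft {N : ℕ} {ι : Type} [Fintype ι] (f : ((Fin d → ℤ) → ℝ) → ℂ)
    (S : ι → Finset (Fin d → ℤ)) (g : ι → ((Fin d → ℤ) → ℝ) → ℂ) (h1 : ∀ i, (S i).card ≤ N)
    (h2 : ∀ i, BM (g i)) (h3 : ∀ i v v', (∀ z ∈ S i, v z = v' z) → g i v = g i v')
    (h4 : ∀ v, f v = ∑ i, g i v) : IsDg N f := by
  let e := Fintype.equivFin ι
  refine ⟨Fintype.card ι, fun i => S (e.symm i), fun i => g (e.symm i), fun i => h1 _,
    fun i => (h2 _).1, fun i => (h2 _).2, fun i => h3 _, fun v => ?_⟩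
  rw [h4 v]
  exact (Equiv.sum_comp e.symm (fun i => g i v)).symm

lemma dg_bm {N : ℕ} {f : ((Fin d → ℤ) → ℝ) → ℂ} (h : IsDg N f) : BM f := by
  obtain ⟨n, S, g, h1, h2, h3, h4, h5⟩ := h
  have e : f = fun v => ∑ i, g i v := funext h5
  rw [e]
  exact BM.sum _ _ fun i _ => ⟨h2 i, h3 i⟩

lemma dg_mono {N N' : ℕ} (hN : N ≤ N') {f : ((Fin d → ℤ) → ℝ) → ℂ} (h : IsDg N f) :
    IsDg N' f := by
  obtain ⟨n, S, g, h1, h2, h3, h4, h5⟩ := h
  exact ⟨n, S, g, fun i => (h1 i).trans hN, h2, h3, h4, h5⟩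

lemma dg_const (c : ℂ) : IsDg (Γ := Fin d → ℤ) 0 (fun _ => c) :=
  dg_ft (ι := Unit) _ (fun _ => ∅) (fun _ _ => c) (fun _ => le_rfl) (fun _ => BM.const c)
    (fun _ _ _ _ => rfl) (fun _ => by simp)

lemma dg_sum {N : ℕ} {ι : Type} (s : Finset ι) (f : ι → ((Fin d → ℤ) → ℝ) → ℂ)
    (h : ∀ i, IsDg N (f i)) : IsDg N (fun v => ∑ i ∈ s, f i v) := by
  choose n S g h1 h2 h3 h4 h5 using h
  refine dg_ft (ι := Σ i : s, Fin (n i)) _ (fun p => S p.1 p.2) (fun p => g p.1 p.2)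
    (fun p => h1 _ _) (fun p => ⟨h2 _ _, h3 _ _⟩) (fun p => h4 _ _) (fun v => ?_)
  rw [Fintype.sum_sigma, ← Finset.sum_coe_sort]
  exact Finset.sum_congr rfl fun i _ => h5 _ v

lemma dg_mul {N M : ℕ} {f q : ((Fin d → ℤ) → ℝ) → ℂ} (hf : IsDg N f) (S₀ : Finset (Fin d → ℤ))
    (hS : S₀.card ≤ M) (hq : BM q) (hq' : ∀ v v', (∀ z ∈ S₀, v z = v' z) → q v = q v') :
    IsDg (N + M) (fun v => f v * q v) := by
  classical
  obtain ⟨n, S, g, h1, h2, h3, h4, h5⟩ := hf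
  refine ⟨n, fun i => S i ∪ S₀, fun i v => g i v * q v, fun i => ?_, fun i => ?_, fun i => ?_,
    fun i v v' hv => ?_, fun v => ?_⟩
  · exact (Finset.card_union_le _ _).trans (add_le_add (h1 i) hS)
  · exact (h2 i).mul hq.1
  · exact (BM.mul ⟨h2 i, h3 i⟩ hq).2
  · dsimp only
    rw [h4 i v v' fun z hz => hv z (Finset.mem_union_left _ hz),
      hq' v v' fun z hz => hv z (Finset.mem_union_right _ hz)]
  · dsimp only
    rw [h5 v, Finset.sum_mul]

lemma dg_avg (ν : Measure ℝ) [IsProbabilityMeasure ν] (B : Finset (Fin d → ℤ)) {N : ℕ}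
    {f : ((Fin d → ℤ) → ℝ) → ℂ} (hf : IsDg N f) : IsDg N (avg ν B f) := by
  obtain ⟨n, S, g, h1, h2, h3, h4, h5⟩ := hf
  have hb : ∀ i, BM (avg ν B (g i)) := fun i => avg_bm ν B ⟨h2 i, h3 i⟩
  refine ⟨n, S, fun i => avg ν B (g i), h1, fun i => (hb i).1, fun i => (hb i).2, ?_, ?_⟩
  · intro i v v' hv
    change avg ν B (g i) v = avg ν B (g i) v'
    rw [avg_def, avg_def]
    refine integral_congr_ae (Filter.Eventually.of_forall fun w => ?_)
    refine h4 i _ _ fun z hz => ?_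
    unfold mix
    split_ifs
    · rfl
    · exact hv z hz
  · intro v
    rw [avg_def]
    simp_rw [h5, avg_def]
    rw [integral_finsetSum]
    intro i _
    obtain ⟨C, hC⟩ := h3 i
    refine Integrable.of_bound ?_ C (Filter.Eventually.of_forall fun w => hC _)
    exact ((h2 i).comp ((meas_mix B).comp measurable_prodMk_right)).aestronglyMeasurable

lemma avg_off (ν : Measure ℝ) [IsProbabilityMeasure ν] (B : Finset (Fin d → ℤ))
    (f : ((Fin d → ℤ) → ℝ) → ℂ) (v v' : (Fin d → ℤ) → ℝ) (h : ∀ z, z ∉ B → v z = v' z) :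
    avg ν B f v = avg ν B f v' := by
  rw [avg_def, avg_def]
  congr 1
  ext w
  congr 1
  ext z
  unfold mix
  by_cases hz : z ∈ B
  · rw [if_pos hz, if_pos hz]
  · rw [if_neg hz, if_neg hz, h z hz]

/-! ### finitely supported vectors -/

/-- The vector with coordinates `a x`, `x ∈ X`. -/
noncomputable def vec (X : Finset (Fin d → ℤ)) (a : (Fin d → ℤ) → ℂ) : l2 (Fin d → ℤ) :=
  ∑ x ∈ X, a x • dl x

lemma vec_apply (X : Finset (Fin d → ℤ)) (a : (Fin d → ℤ) → ℂ) (x : Fin d → ℤ) :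
    (vec X a) x = if x ∈ X then a x else 0 := by
  unfold vec
  rw [lp.coeFn_sum, Finset.sum_apply]
  simp only [lp.coeFn_smul, Pi.smul_apply, dl_apply, smul_eq_mul, mul_ite, mul_one, mul_zero]
  rw [Finset.sum_ite_eq]

lemma vec_add (X : Finset (Fin d → ℤ)) (a b : (Fin d → ℤ) → ℂ) :
    vec X (fun x => a x + b x) = vec X a + vec X b := by
  unfold vec
  rw [← Finset.sum_add_distrib]
  exact Finset.sum_congr rfl fun x _ => add_smul _ _ _

lemma norm_vec (X : Finset (Fin d → ℤ)) (a : (Fin d → ℤ) → ℂ) :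
    ‖vec X a‖ ^ 2 = ∑ x ∈ X, ‖a x‖ ^ 2 := by
  have h := lp.norm_rpow_eq_tsum (p := 2) (by norm_num) (vec X a)
  simp only [ENNReal.toReal_ofNat, Real.rpow_ofNat] at h
  rw [h, tsum_eq_sum (s := X)]
  · refine Finset.sum_congr rfl fun x hx => ?_
    rw [vec_apply, if_pos hx]
  · intro x hx
    rw [vec_apply, if_neg hx]
    simp

/-- The `R`-neighbourhood of a finite set. -/
noncomputable def nh (R : ℕ) (X : Finset (Fin d → ℤ)) : Finset (Fin d → ℤ) := X.biUnion (bx R)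

lemma map_vec (T : l2 (Fin d → ℤ) →L[ℂ] l2 (Fin d → ℤ)) (X : Finset (Fin d → ℤ))
    (a : (Fin d → ℤ) → ℂ) (x : Fin d → ℤ) : T (vec X a) x = ∑ y ∈ X, a y * T (dl y) x := by
  unfold vec
  rw [map_sum, lp.coeFn_sum, Finset.sum_apply]
  refine Finset.sum_congr rfl fun y _ => ?_
  rw [map_smul, lp.coeFn_smul, Pi.smul_apply, smul_eq_mul]

lemma Q_vec {R : ℕ} {C : ℝ} {Q : ((Fin d → ℤ) → ℝ) → (l2 (Fin d → ℤ) →L[ℂ] l2 (Fin d → ℤ))}
    (hQ : IsLoc R C Q) (X : Finset (Fin d → ℤ)) (a : (Fin d → ℤ) → ℂ) (v : (Fin d → ℤ) → ℝ) :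
    Q v (vec X a) = vec (nh R X) (fun x => ∑ y ∈ X, a y * Q v (dl y) x) := by
  ext x
  rw [map_vec, vec_apply]
  split_ifs with hx
  · rfl
  · refine Finset.sum_eq_zero fun y hy => ?_
    rw [hQ.range v x y, mul_zero]
    intro hn
    apply hx
    rw [nh, Finset.mem_biUnion]
    refine ⟨y, hy, mem_bx.2 fun i => ?_⟩
    rw [abs_sub_comm]
    exact hn i

/-- The support of the convolution. -/
noncomputable def cs (h : (Fin d → ℤ) →₀ ℂ) (X : Finset (Fin d → ℤ)) : Finset (Fin d → ℤ) :=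
  Finset.image₂ (fun n y => n + y) h.support X

lemma P_vec (h : (Fin d → ℤ) →₀ ℂ) (X : Finset (Fin d → ℤ)) (a : (Fin d → ℤ) → ℂ) :
    opr (trig h) (vec X a) = vec (cs h X) (fun x => ∑ y ∈ X, h (x - y) * a y) := by
  have hc : ∀ x y, opr (trig h) (dl y) x = h (x - y) := fun x y => by
    rw [opr_coef, (Pool.Agent.W308.LL.Trig.main d).2]
  ext x
  rw [map_vec, vec_apply]
  split_ifs with hx
  · exact Finset.sum_congr rfl fun y _ => by rw [hc, mul_comm]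
  · refine Finset.sum_eq_zero fun y hy => ?_
    rw [hc]
    by_cases h0 : h (x - y) = 0
    · rw [h0, mul_zero]
    · exfalso
      apply hx
      rw [cs, Finset.mem_image₂]
      exact ⟨x - y, Finsupp.mem_support_iff.2 h0, y, hy, sub_add_cancel _ _⟩

/-! ### mean square norms -/

lemma norm_dl (y : Fin d → ℤ) : ‖(dl y : l2 (Fin d → ℤ))‖ = 1 := by
  unfold dl
  rw [lp.norm_single (by norm_num)]
  simp

lemma bm_Q {R : ℕ} {C : ℝ} {Q : ((Fin d → ℤ) → ℝ) → (l2 (Fin d → ℤ) →L[ℂ] l2 (Fin d → ℤ))}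
    (hQ : IsLoc R C Q) (x y : Fin d → ℤ) : BM (fun v => Q v (dl y) x) := by
  refine ⟨hQ.meas x y, C, fun v => ?_⟩
  refine (Pool.Agent.W74.WA.QL.norm_coord _ _).trans (((Q v).le_opNorm _).trans ?_)
  rw [norm_dl, mul_one]
  exact hQ.bound v

variable (ν : Measure ℝ) [IsProbabilityMeasure ν]

/-- Mean square norm. -/
noncomputable def nn (X : Finset (Fin d → ℤ)) (a : (Fin d → ℤ) → ((Fin d → ℤ) → ℝ) → ℂ) : ℝ :=
  ∑ x ∈ X, ∫ v, ‖a x v‖ ^ 2 ∂(Pn ν (Fin d → ℤ))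

lemma nn_nonneg (X : Finset (Fin d → ℤ)) (a : (Fin d → ℤ) → ((Fin d → ℤ) → ℝ) → ℂ) :
    0 ≤ nn ν X a :=
  Finset.sum_nonneg fun _ _ => integral_nonneg fun _ => by positivity

lemma int_vec (X : Finset (Fin d → ℤ)) (a : (Fin d → ℤ) → ((Fin d → ℤ) → ℝ) → ℂ)
    (ha : ∀ x, BM (a x)) :
    Integrable (fun v => ‖vec X (fun x => a x v)‖ ^ 2) (Pn ν (Fin d → ℤ)) := by
  have e : (fun v => ‖vec X (fun x => a x v)‖ ^ 2) = fun v => ∑ x ∈ X, ‖a x v‖ ^ 2 :=
    funext fun v => norm_vec X _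
  rw [e]
  exact integrable_finsetSum _ fun x _ => (ha x).int2 _

lemma nn_eq (X : Finset (Fin d → ℤ)) (a : (Fin d → ℤ) → ((Fin d → ℤ) → ℝ) → ℂ)
    (ha : ∀ x, BM (a x)) :
    ∫ v, ‖vec X (fun x => a x v)‖ ^ 2 ∂(Pn ν (Fin d → ℤ)) = nn ν X a := by
  have e : (fun v => ‖vec X (fun x => a x v)‖ ^ 2) = fun v => ∑ x ∈ X, ‖a x v‖ ^ 2 :=
    funext fun v => norm_vec X _
  rw [e, integral_finsetSum _ fun x _ => (ha x).int2 _]
  rfl

lemma nn_op (X Y : Finset (Fin d → ℤ)) (a b : (Fin d → ℤ) → ((Fin d → ℤ) → ℝ) → ℂ)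
    (ha : ∀ x, BM (a x)) (hb : ∀ x, BM (b x))
    (T : ((Fin d → ℤ) → ℝ) → (l2 (Fin d → ℤ) →L[ℂ] l2 (Fin d → ℤ))) (K : ℝ)
    (hT : ∀ v, ‖T v‖ ≤ K)
    (h : ∀ v, T v (vec X (fun x => a x v)) = vec Y (fun x => b x v)) :
    nn ν Y b ≤ K ^ 2 * nn ν X a := by
  rw [← nn_eq ν Y b hb, ← nn_eq ν X a ha, ← integral_const_mul]
  refine integral_mono (int_vec ν Y b hb) ((int_vec ν X a ha).const_mul _) fun v => ?_
  dsimp only
  rw [← h v, ← mul_pow]
  exact pow_le_pow_left₀ (norm_nonneg _) (((T v).le_opNorm _).trans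
    (mul_le_mul_of_nonneg_right (hT v) (norm_nonneg _))) 2

lemma sq_add_le (x y : ℂ) : ‖x + y‖ ^ 2 ≤ 2 * ‖x‖ ^ 2 + 2 * ‖y‖ ^ 2 := by
  have h := norm_add_le x y
  have h2 : ‖x + y‖ ^ 2 ≤ (‖x‖ + ‖y‖) ^ 2 := pow_le_pow_left₀ (norm_nonneg _) h 2
  nlinarith [sq_nonneg (‖x‖ - ‖y‖)]

lemma nn_add (X : Finset (Fin d → ℤ)) (a b : (Fin d → ℤ) → ((Fin d → ℤ) → ℝ) → ℂ)
    (ha : ∀ x, BM (a x)) (hb : ∀ x, BM (b x)) :
    nn ν X (fun x v => a x v + b x v) ≤ 2 * nn ν X a + 2 * nn ν X b := by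
  unfold nn
  rw [Finset.mul_sum, Finset.mul_sum, ← Finset.sum_add_distrib]
  refine Finset.sum_le_sum fun x _ => ?_
  rw [← integral_const_mul, ← integral_const_mul, ← integral_add
    (((ha x).int2 _).const_mul _) (((hb x).int2 _).const_mul _)]
  exact integral_mono (((ha x).add (hb x)).int2 _)
    ((((ha x).int2 _).const_mul _).add (((hb x).int2 _).const_mul _)) fun v => sq_add_le _ _

/-! ### the induction step -/

lemma card_bx (R : ℕ) (x : Fin d → ℤ) : (bx R x).card = (2 * R + 1) ^ d := by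
  unfold bx
  rw [Pi.card_Icc]
  have : ∀ i : Fin d, (Finset.Icc (x i - (R : ℤ)) (x i + R)).card = 2 * R + 1 := by
    intro i
    rw [Int.card_Icc]
    omega
  simp only [this, Finset.prod_const, Finset.card_univ, Fintype.card_fin]

/-- The function `Q g`. -/
noncomputable def FF (Q : ((Fin d → ℤ) → ℝ) → (l2 (Fin d → ℤ) →L[ℂ] l2 (Fin d → ℤ)))
    (X : Finset (Fin d → ℤ)) (g : (Fin d → ℤ) → ((Fin d → ℤ) → ℝ) → ℂ) :
    (Fin d → ℤ) → ((Fin d → ℤ) → ℝ) → ℂ := fun x v => ∑ y ∈ X, g y v * Q v (dl y) x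

lemma FF_bm {R : ℕ} {C : ℝ} {Q : ((Fin d → ℤ) → ℝ) → (l2 (Fin d → ℤ) →L[ℂ] l2 (Fin d → ℤ))}
    (hQ : IsLoc R C Q) (X : Finset (Fin d → ℤ)) (g : (Fin d → ℤ) → ((Fin d → ℤ) → ℝ) → ℂ)
    (hg : ∀ x, BM (g x)) (x : Fin d → ℤ) : BM (FF Q X g x) :=
  BM.sum _ _ fun y _ => (hg y).mul (bm_Q hQ x y)

lemma FF_dg {R N : ℕ} {C : ℝ} {Q : ((Fin d → ℤ) → ℝ) → (l2 (Fin d → ℤ) →L[ℂ] l2 (Fin d → ℤ))}
    (hQ : IsLoc R C Q) (X : Finset (Fin d → ℤ)) (g : (Fin d → ℤ) → ((Fin d → ℤ) → ℝ) → ℂ)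
    (hg : ∀ x, IsDg N (g x)) (x : Fin d → ℤ) : IsDg (N + (2 * R + 1) ^ d) (FF Q X g x) :=
  dg_sum _ _ fun y => dg_mul (hg y) (bx R x) (card_bx R x).le (bm_Q hQ x y)
    fun v v' hv => hQ.loc x y v v' fun z hz => hv z (mem_bx.2 hz)

lemma FF_avg {R : ℕ} {C : ℝ} {Q : ((Fin d → ℤ) → ℝ) → (l2 (Fin d → ℤ) →L[ℂ] l2 (Fin d → ℤ))}
    (hQ : IsLoc R C Q) (h0 : ∀ x y, ∫ v, Q v (dl y) x ∂(Pn ν (Fin d → ℤ)) = 0)
    (X : Finset (Fin d → ℤ)) (g : (Fin d → ℤ) → ((Fin d → ℤ) → ℝ) → ℂ)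
    (hg : ∀ x v v', (∀ z, z ∉ bx (2 * R) x → v z = v' z) → g x v = g x v') (x : Fin d → ℤ)
    (v : (Fin d → ℤ) → ℝ) : avg ν (bx R x) (FF Q X g x) v = 0 := by
  rw [avg_def]
  have e : ∀ v', FF Q X g x (mix (bx R x) v' v) = ∑ y ∈ X, g y v * Q v' (dl y) x := by
    intro v'
    refine Finset.sum_congr rfl fun y _ => ?_
    by_cases hn : nb R x y
    · congr 1
      · refine hg y _ _ fun z hz => ?_
        unfold mix
        rw [if_neg]
        intro hz'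
        apply hz
        rw [mem_bx] at hz' ⊢
        intro i
        have e1 : y i - z i = (y i - x i) + (x i - z i) := by ring
        rw [e1]
        refine (abs_add_le _ _).trans ?_
        have a1 := hz' i
        have a2 := hn i
        rw [abs_sub_comm] at a2
        push_cast
        linarith
      · refine hQ.loc x y _ _ fun z hz => ?_
        unfold mix
        rw [if_pos (mem_bx.2 hz)]
    · rw [hQ.range _ x y hn, hQ.range _ x y hn, mul_zero, mul_zero]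
  simp_rw [e]
  rw [integral_finsetSum]
  · refine Finset.sum_eq_zero fun y _ => ?_
    rw [integral_const_mul, h0, mul_zero]
  · intro y _
    exact ((bm_Q hQ x y).int _).const_mul _

/-- The function `p F`. -/
noncomputable def GG (h : (Fin d → ℤ) →₀ ℂ) (Y : Finset (Fin d → ℤ))
    (F : (Fin d → ℤ) → ((Fin d → ℤ) → ℝ) → ℂ) :
    (Fin d → ℤ) → ((Fin d → ℤ) → ℝ) → ℂ := fun x v => ∑ y ∈ Y, h (x - y) * F y v

lemma GG_bm (h : (Fin d → ℤ) →₀ ℂ) (Y : Finset (Fin d → ℤ))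
    (F : (Fin d → ℤ) → ((Fin d → ℤ) → ℝ) → ℂ) (hF : ∀ x, BM (F x)) (x : Fin d → ℤ) :
    BM (GG h Y F x) := BM.sum _ _ fun y _ => (BM.const _).mul (hF y)

lemma GG_dg {N : ℕ} (h : (Fin d → ℤ) →₀ ℂ) (Y : Finset (Fin d → ℤ))
    (F : (Fin d → ℤ) → ((Fin d → ℤ) → ℝ) → ℂ) (hF : ∀ x, IsDg N (F x)) (x : Fin d → ℤ) :
    IsDg N (GG h Y F x) := by
  refine dg_sum _ _ fun y => ?_
  have := dg_mul (hF y) ∅ (M := 0) le_rfl (BM.const (h (x - y))) (fun _ _ _ => rfl)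
  simp only [mul_comm (F y _)] at this
  exact this

/-- The data of the induction. -/
def Dat (R N : ℕ) (a b : ℝ) (V : ((Fin d → ℤ) → ℝ) → l2 (Fin d → ℤ)) : Prop :=
  ∃ (X : Finset (Fin d → ℤ)) (g h : (Fin d → ℤ) → ((Fin d → ℤ) → ℝ) → ℂ),
    (∀ v, V v = vec X (fun x => g x v) + vec X (fun x => h x v)) ∧
    (∀ x, IsDg N (g x)) ∧ (∀ x, BM (h x)) ∧
    (∀ x v v', (∀ z, z ∉ bx (2 * R) x → v z = v' z) → g x v = g x v') ∧
    nn ν X g ≤ a ∧ nn ν X h ≤ b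

/-- The factor of the influences. -/
noncomputable def A1 (d R N : ℕ) : ℝ :=
  (N : ℝ) ^ 2 * (2 * ((2 * R : ℕ) : ℝ) + 1) ^ d * (2 * (R : ℝ) + 1) ^ d

lemma step (hI : S_INF) {R N : ℕ} {C : ℝ}
    {Q : ((Fin d → ℤ) → ℝ) → (l2 (Fin d → ℤ) →L[ℂ] l2 (Fin d → ℤ))}
    (hQ : IsLoc R C Q) (h0 : ∀ x y, ∫ v, Q v (dl y) x ∂(Pn ν (Fin d → ℤ)) = 0)
    (p : (Fin d → ℤ) →₀ ℂ) (hp : ‖trig p‖ ≤ 2) (δ : ℝ) (hδ : 0 ≤ δ) (hpδ : ∀ x, ‖p x‖ ≤ δ)
    {a b : ℝ} {V : ((Fin d → ℤ) → ℝ) → l2 (Fin d → ℤ)} (hV : Dat ν R N a b V) :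
    Dat ν R (N + (2 * R + 1) ^ d)
      (2 * (4 * (C ^ 2 * a)) + 2 * (A1 d R (N + (2 * R + 1) ^ d) * δ ^ 2 * (C ^ 2 * a)))
      (2 * (A1 d R (N + (2 * R + 1) ^ d) * δ ^ 2 * (C ^ 2 * a)) + 2 * (4 * (C ^ 2 * b)))
      (fun v => opr (trig p) (Q v (V v))) := by
  obtain ⟨X, g, h, hVe, hg, hh, hgl, hga, hhb⟩ := hV
  set Y := nh R X with hY
  set Z := cs p Y with hZ
  set F := FF Q X g with hF
  set G := GG p Y F with hG
  set N' := N + (2 * R + 1) ^ d with hN'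
  have hgb : ∀ x, BM (g x) := fun x => dg_bm (hg x)
  have hFb : ∀ x, BM (F x) := FF_bm hQ X g hgb
  have hGb : ∀ x, BM (G x) := GG_bm p Y F hFb
  have hFd : ∀ x, IsDg N' (F x) := FF_dg hQ X g hg
  have hGd : ∀ x, IsDg N' (G x) := GG_dg p Y F hFd
  set F' := FF Q X h with hF'
  set G' := GG p Y F' with hG'
  have hFb' : ∀ x, BM (F' x) := FF_bm hQ X h hh
  have hGb' : ∀ x, BM (G' x) := GG_bm p Y F' hFb'
  set g' : (Fin d → ℤ) → ((Fin d → ℤ) → ℝ) → ℂ := fun x => avg ν (bx (2 * R) x) (G x) with hg'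
  have hgb' : ∀ x, BM (g' x) := fun x => avg_bm ν _ (hGb x)
  have hoP : ‖opr (trig p)‖ ≤ 2 := (Pool.Agent.W918.LL.main d (trig p) (trig p)).2.1.trans hp
  have hnF : nn ν Y F ≤ C ^ 2 * a :=
    (nn_op ν X Y g F hgb hFb Q C hQ.bound fun v => Q_vec hQ X _ v).trans
      (mul_le_mul_of_nonneg_left hga (sq_nonneg _))
  have hnG : nn ν Z G ≤ 4 * (C ^ 2 * a) := by
    refine (nn_op ν Y Z F G hFb hGb (fun _ => opr (trig p)) 2 (fun _ => hoP)
      fun v => P_vec p Y _).trans ?_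
    norm_num
    exact hnF
  have hnF' : nn ν Y F' ≤ C ^ 2 * b :=
    (nn_op ν X Y h F' hh hFb' Q C hQ.bound fun v => Q_vec hQ X _ v).trans
      (mul_le_mul_of_nonneg_left hhb (sq_nonneg _))
  have hnG' : nn ν Z G' ≤ 4 * (C ^ 2 * b) := by
    refine (nn_op ν Y Z F' G' hFb' hGb' (fun _ => opr (trig p)) 2 (fun _ => hoP)
      fun v => P_vec p Y _).trans ?_
    norm_num
    exact hnF'
  have hinf : nn ν Z (fun x v => G x v - g' x v) ≤ A1 d R N' * δ ^ 2 * (C ^ 2 * a) := by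
    have h1 := (hI ν d R (2 * R) N' δ Z Y F p hδ hFd (fun y v => FF_avg ν hQ h0 X g hgl y v)
      hpδ).2
    refine h1.trans ?_
    unfold A1
    exact mul_le_mul_of_nonneg_left hnF (by positivity)
  refine ⟨Z, g', fun x v => (G x v - g' x v) + G' x v, fun v => ?_, fun x => dg_avg ν _ (hGd x),
    fun x => ((hGb x).sub (hgb' x)).add (hGb' x),
    fun x v v' hv => avg_off ν _ _ v v' hv, ?_, ?_⟩
  · change opr (trig p) (Q v (V v)) = _
    rw [← vec_add, hVe v, map_add, map_add, Q_vec hQ, Q_vec hQ, P_vec, P_vec, ← vec_add]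
    congr 1
    ext x
    change G x v + G' x v = g' x v + (G x v - g' x v + G' x v)
    ring
  · have h1 : nn ν Z g' = nn ν Z (fun x v => G x v + (g' x v - G x v)) := by
      congr 1
      ext x v
      ring
    have h2 : nn ν Z (fun x v => g' x v - G x v) = nn ν Z (fun x v => G x v - g' x v) := by
      unfold nn
      refine Finset.sum_congr rfl fun x _ => ?_
      congr 1
      ext v
      rw [norm_sub_rev]
    rw [h1]
    refine (nn_add ν Z G _ hGb fun x => (hgb' x).sub (hGb x)).trans ?_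
    rw [h2]
    linarith
  · refine (nn_add ν Z _ G' (fun x => (hGb x).sub (hgb' x)) hGb').trans ?_
    linarith

/-- The constants for the main part. -/
noncomputable def aa (d R : ℕ) (C : ℝ) : ℕ → ℝ
  | 0 => 4
  | j + 1 => 2 * (4 * (C ^ 2 * aa d R C j)) +
      2 * (A1 d R ((j + 1) * (2 * R + 1) ^ d) * 4 * (C ^ 2 * aa d R C j))

/-- The constants for the small part. -/
noncomputable def bb (d R : ℕ) (C : ℝ) : ℕ → ℝ
  | 0 => 0
  | j + 1 => 2 * (A1 d R ((j + 1) * (2 * R + 1) ^ d) * 4 * (C ^ 2 * aa d R C j)) +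
      2 * (4 * (C ^ 2 * bb d R C j))

lemma A1_nonneg (d R N : ℕ) : 0 ≤ A1 d R N := by unfold A1; positivity

lemma aa_nonneg (d R : ℕ) (C : ℝ) (j : ℕ) : 0 ≤ aa d R C j := by
  induction j with
  | zero => unfold aa; norm_num
  | succ j ih =>
    unfold aa
    have := A1_nonneg d R ((j + 1) * (2 * R + 1) ^ d)
    positivity

lemma bb_nonneg (d R : ℕ) (C : ℝ) (j : ℕ) : 0 ≤ bb d R C j := by
  induction j with
  | zero => unfold bb; exact le_rfl
  | succ j ih =>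
    unfold bb
    have := A1_nonneg d R ((j + 1) * (2 * R + 1) ^ d)
    have := aa_nonneg d R C j
    positivity

lemma Dat_mono {R N : ℕ} {a b a' b' : ℝ} {V : ((Fin d → ℤ) → ℝ) → l2 (Fin d → ℤ)}
    (h : Dat ν R N a b V) (ha : a ≤ a') (hb : b ≤ b') : Dat ν R N a' b' V := by
  obtain ⟨X, g, h, h1, h2, h3, h4, h5, h6⟩ := h
  exact ⟨X, g, h, h1, h2, h3, h4, h5.trans ha, h6.trans hb⟩

lemma iter (hI : S_INF) {R : ℕ} {C : ℝ}
    {Q : ((Fin d → ℤ) → ℝ) → (l2 (Fin d → ℤ) →L[ℂ] l2 (Fin d → ℤ))}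
    (hQ : IsLoc R C Q) (h0 : ∀ x y, ∫ v, Q v (dl y) x ∂(Pn ν (Fin d → ℤ)) = 0)
    (p : (Fin d → ℤ) →₀ ℂ) (hp : ‖trig p‖ ≤ 2) (δ : ℝ) (hδ : 0 ≤ δ) (hδ1 : δ ≤ 1)
    (hpδ : ∀ x, ‖p x‖ ≤ 2 * δ) (X : Finset (Fin d → ℤ)) (u : (Fin d → ℤ) → ℂ)
    (hu : ‖vec X u‖ ≤ 2) (j : ℕ) :
    Dat ν R (j * (2 * R + 1) ^ d) (aa d R C j) (bb d R C j * δ ^ 2)
      (fun v => ((opr (trig p) * Q v) ^ j) (vec X u)) := by
  induction j with
  | zero =>
    refine ⟨X, fun x _ => u x, fun _ _ => 0, fun v => ?_, fun x => ?_, fun x => BM.const 0,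
      fun _ _ _ _ => rfl, ?_, ?_⟩
    · change (vec X u) = _
      have : vec X (fun _ : Fin d → ℤ => (0 : ℂ)) = 0 := by
        unfold vec
        simp
      rw [this, add_zero]
    · rw [Nat.zero_mul]
      exact dg_const _
    · unfold nn aa
      simp only [integral_const, probReal_univ, smul_eq_mul, one_mul]
      rw [← norm_vec]
      calc ‖vec X u‖ ^ 2 ≤ 2 ^ 2 := pow_le_pow_left₀ (norm_nonneg _) hu 2
        _ = 4 := by norm_num
    · unfold nn bb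
      simp
  | succ j ih =>
    have h1 := step ν hI hQ h0 p hp (2 * δ) (by linarith) hpδ ih
    have hN : j * (2 * R + 1) ^ d + (2 * R + 1) ^ d = (j + 1) * (2 * R + 1) ^ d := by ring
    rw [hN] at h1
    have hfun : (fun v => ((opr (trig p) * Q v) ^ (j + 1)) (vec X u)) =
        fun v => opr (trig p) (Q v (((opr (trig p) * Q v) ^ j) (vec X u))) := by
      ext1 v
      rw [pow_succ']
      rfl
    rw [hfun]
    have hA := A1_nonneg d R ((j + 1) * (2 * R + 1) ^ d)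
    have ha := aa_nonneg d R C j
    have hb := bb_nonneg d R C j
    have hd2 : δ ^ 2 ≤ 1 := by nlinarith
    refine Dat_mono ν h1 ?_ ?_
    · change _ ≤ 2 * (4 * (C ^ 2 * aa d R C j)) +
        2 * (A1 d R ((j + 1) * (2 * R + 1) ^ d) * 4 * (C ^ 2 * aa d R C j))
      have h2 : A1 d R ((j + 1) * (2 * R + 1) ^ d) * (2 * δ) ^ 2 * (C ^ 2 * aa d R C j) ≤
          A1 d R ((j + 1) * (2 * R + 1) ^ d) * 4 * (C ^ 2 * aa d R C j) := by
        apply mul_le_mul_of_nonneg_right _ (by positivity)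
        apply mul_le_mul_of_nonneg_left _ hA
        nlinarith
      linarith
    · apply le_of_eq
      change _ = (2 * (A1 d R ((j + 1) * (2 * R + 1) ^ d) * 4 * (C ^ 2 * aa d R C j)) +
        2 * (4 * (C ^ 2 * bb d R C j))) * δ ^ 2
      ring

/-! ### conclusions for nice data -/

lemma amgm (C t e : ℝ) (he : 0 < e) : C * t ≤ e / 4 + C ^ 2 / e * t ^ 2 := by
  have h : 0 ≤ (C * t / e - 1 / 2) ^ 2 * e := by positivity
  have h2 : (C * t / e - 1 / 2) ^ 2 * e = C ^ 2 / e * t ^ 2 - C * t + e / 4 := by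
    field_simp
    ring
  linarith

lemma fin1 {R N : ℕ} {C : ℝ}
    {Q : ((Fin d → ℤ) → ℝ) → (l2 (Fin d → ℤ) →L[ℂ] l2 (Fin d → ℤ))}
    (hQ : IsLoc R C Q) (h0 : ∀ x y, ∫ v, Q v (dl y) x ∂(Pn ν (Fin d → ℤ)) = 0)
    {a b : ℝ} {V : ((Fin d → ℤ) → ℝ) → l2 (Fin d → ℤ)} (hV : Dat ν R N a b V) (e : ℝ)
    (he : 0 < e) (w : l2 (Fin d → ℤ)) (hw : ‖w‖ ≤ 1) :
    Integrable (fun v => inner ℂ w (Q v (V v))) (Pn ν (Fin d → ℤ)) ∧
    ‖∫ v, inner ℂ w (Q v (V v)) ∂(Pn ν (Fin d → ℤ))‖ ≤ e / 4 + C ^ 2 / e * b := by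
  obtain ⟨X, g, h, hVe, hg, hh, hgl, hga, hhb⟩ := hV
  have hgb : ∀ x, BM (g x) := fun x => dg_bm (hg x)
  have hFb : ∀ x, BM (FF Q X g x) := FF_bm hQ X g hgb
  have hFb' : ∀ x, BM (FF Q X h x) := FF_bm hQ X h hh
  have hin : ∀ (Y : Finset (Fin d → ℤ)) (a : (Fin d → ℤ) → ℂ),
      inner ℂ w (vec Y a) = ∑ x ∈ Y, a x * (starRingEnd ℂ) (w x) := by
    intro Y a
    unfold vec
    rw [inner_sum]
    refine Finset.sum_congr rfl fun x _ => ?_
    rw [inner_smul_right]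
    congr 1
    unfold dl
    rw [lp.inner_single_right]
    simp
  have e1 : ∀ v, inner ℂ w (Q v (V v)) = (∑ x ∈ nh R X, FF Q X g x v * (starRingEnd ℂ) (w x)) +
      ∑ x ∈ nh R X, FF Q X h x v * (starRingEnd ℂ) (w x) := by
    intro v
    rw [hVe v, map_add, inner_add_right, Q_vec hQ, Q_vec hQ, hin, hin]
    rfl
  have b1 : BM (fun v => ∑ x ∈ nh R X, FF Q X g x v * (starRingEnd ℂ) (w x)) :=
    BM.sum _ _ fun x _ => (hFb x).mul (BM.const _)
  have b2 : BM (fun v => ∑ x ∈ nh R X, FF Q X h x v * (starRingEnd ℂ) (w x)) :=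
    BM.sum _ _ fun x _ => (hFb' x).mul (BM.const _)
  have i1 : ∫ v, (∑ x ∈ nh R X, FF Q X g x v * (starRingEnd ℂ) (w x)) ∂(Pn ν (Fin d → ℤ)) = 0 := by
    rw [integral_finsetSum _ fun x _ => ((hFb x).mul (BM.const _)).int _]
    refine Finset.sum_eq_zero fun x _ => ?_
    rw [integral_mul_const, ← int_avg ν (bx R x) (hFb x)]
    simp_rw [FF_avg ν hQ h0 X g hgl]
    simp
  constructor
  · simp_rw [e1]
    exact (b1.add b2).int _
  simp_rw [e1]
  rw [integral_add (b1.int _) (b2.int _), i1, zero_add]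
  have hC := loc_nonneg hQ
  have e2 : ∀ v, ‖∑ x ∈ nh R X, FF Q X h x v * (starRingEnd ℂ) (w x)‖ ≤
      e / 4 + C ^ 2 / e * ‖vec X (fun x => h x v)‖ ^ 2 := by
    intro v
    have e3 : ∑ x ∈ nh R X, FF Q X h x v * (starRingEnd ℂ) (w x) =
        inner ℂ w (Q v (vec X (fun x => h x v))) := by
      rw [Q_vec hQ, hin]
      rfl
    rw [e3]
    refine (norm_inner_le_norm _ _).trans ?_
    refine le_trans ?_ (amgm C _ e he)
    calc ‖w‖ * ‖Q v (vec X fun x => h x v)‖ ≤ 1 * (C * ‖vec X fun x => h x v‖) :=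
          mul_le_mul hw (((Q v).le_opNorm _).trans
            (mul_le_mul_of_nonneg_right (hQ.bound v) (norm_nonneg _))) (norm_nonneg _) zero_le_one
      _ = _ := one_mul _
  refine (norm_integral_le_integral_norm _).trans ?_
  refine (integral_mono (b2.int _).norm
    ((integrable_const _).add ((int_vec ν X h hh).const_mul _)) e2).trans ?_
  rw [integral_add' (integrable_const _) ((int_vec ν X h hh).const_mul _), integral_const_mul,
    nn_eq ν X h hh, integral_const]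
  simp only [probReal_univ, smul_eq_mul, one_mul]
  have : C ^ 2 / e * nn ν X h ≤ C ^ 2 / e * b := mul_le_mul_of_nonneg_left hhb (by positivity)
  linarith

lemma fin2 (hI : S_INF) {R N : ℕ} {C : ℝ}
    {Q : ((Fin d → ℤ) → ℝ) → (l2 (Fin d → ℤ) →L[ℂ] l2 (Fin d → ℤ))}
    (hQ : IsLoc R C Q) (h0 : ∀ x y, ∫ v, Q v (dl y) x ∂(Pn ν (Fin d → ℤ)) = 0)
    (p : (Fin d → ℤ) →₀ ℂ) (hp : ‖trig p‖ ≤ 2) (δ : ℝ) (hδ : 0 ≤ δ) (hpδ : ∀ x, ‖p x‖ ≤ δ)
    {a b : ℝ} {V : ((Fin d → ℤ) → ℝ) → l2 (Fin d → ℤ)} (hV : Dat ν R N a b V)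
    (x : Fin d → ℤ) :
    Integrable (fun v => ‖(opr (trig p) (Q v (V v))) x‖ ^ 2) (Pn ν (Fin d → ℤ)) ∧
    ∫ v, ‖(opr (trig p) (Q v (V v))) x‖ ^ 2 ∂(Pn ν (Fin d → ℤ)) ≤
      2 * (((N + (2 * R + 1) ^ d : ℕ) : ℝ) * (2 * (R : ℝ) + 1) ^ d * δ ^ 2 * (C ^ 2 * a)) +
      2 * (4 * (C ^ 2 * b)) := by
  obtain ⟨X, g, h, hVe, hg, hh, hgl, hga, hhb⟩ := hV
  set Y := nh R X with hY
  set Z := cs p Y with hZ
  set F := FF Q X g with hF
  set N' := N + (2 * R + 1) ^ d with hN'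
  have hgb : ∀ x, BM (g x) := fun x => dg_bm (hg x)
  have hFb : ∀ x, BM (F x) := FF_bm hQ X g hgb
  have hFd : ∀ x, IsDg N' (F x) := FF_dg hQ X g hg
  set F' := FF Q X h with hF'
  have hFb' : ∀ x, BM (F' x) := FF_bm hQ X h hh
  have hoP : ‖opr (trig p)‖ ≤ 2 := (Pool.Agent.W918.LL.main d (trig p) (trig p)).2.1.trans hp
  have hnF : nn ν Y F ≤ C ^ 2 * a :=
    (nn_op ν X Y g F hgb hFb Q C hQ.bound fun v => Q_vec hQ X _ v).trans
      (mul_le_mul_of_nonneg_left hga (sq_nonneg _))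
  have hC := loc_nonneg hQ
  have hc : ∀ x y, opr (trig p) (dl y) x = p (x - y) := fun x y => by
    rw [opr_coef, (Pool.Agent.W308.LL.Trig.main d).2]
  have e1 : ∀ v, (opr (trig p) (Q v (V v))) x = (∑ y ∈ Y, p (x - y) * F y v) +
      ∑ y ∈ Y, p (x - y) * F' y v := by
    intro v
    rw [hVe v, map_add, map_add, Q_vec hQ, Q_vec hQ, lp.coeFn_add, Pi.add_apply, map_vec, map_vec]
    congr 1
    · exact Finset.sum_congr rfl fun y _ => by rw [hc, mul_comm]; rfl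
    · exact Finset.sum_congr rfl fun y _ => by rw [hc, mul_comm]; rfl
  have b1 : BM (fun v => ∑ y ∈ Y, p (x - y) * F y v) :=
    BM.sum _ _ fun y _ => (BM.const _).mul (hFb y)
  have b2 : BM (fun v => ∑ y ∈ Y, p (x - y) * F' y v) :=
    BM.sum _ _ fun y _ => (BM.const _).mul (hFb' y)
  have e2 : ∀ v, ‖∑ y ∈ Y, p (x - y) * F' y v‖ ^ 2 ≤
      4 * C ^ 2 * ‖vec X (fun x => h x v)‖ ^ 2 := by
    intro v
    have e3 : ∑ y ∈ Y, p (x - y) * F' y v = (opr (trig p) (Q v (vec X (fun x => h x v)))) x := by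
      rw [Q_vec hQ, map_vec]
      exact Finset.sum_congr rfl fun y _ => by rw [hc, mul_comm]; rfl
    rw [e3]
    have e4 : ‖(opr (trig p) (Q v (vec X (fun x => h x v)))) x‖ ≤
        2 * (C * ‖vec X (fun x => h x v)‖) := by
      refine (Pool.Agent.W74.WA.QL.norm_coord _ _).trans ?_
      refine ((opr (trig p)).le_opNorm _).trans ?_
      exact mul_le_mul hoP (((Q v).le_opNorm _).trans
        (mul_le_mul_of_nonneg_right (hQ.bound v) (norm_nonneg _))) (norm_nonneg _) zero_le_two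
    calc _ ≤ (2 * (C * ‖vec X (fun x => h x v)‖)) ^ 2 := pow_le_pow_left₀ (norm_nonneg _) e4 2
      _ = _ := by ring
  have b3 : BM (fun v => (opr (trig p) (Q v (V v))) x) := by
    simp_rw [e1]
    exact b1.add b2
  refine ⟨b3.int2 _, ?_⟩
  have hinf := (hI ν d R (2 * R) N' δ Z Y F p hδ hFd (fun y v => FF_avg ν hQ h0 X g hgl y v)
      hpδ).1 x
  have e5 : ∀ v, ‖(opr (trig p) (Q v (V v))) x‖ ^ 2 ≤
      2 * ‖∑ y ∈ Y, p (x - y) * F y v‖ ^ 2 + 2 * (4 * C ^ 2 * ‖vec X (fun x => h x v)‖ ^ 2) := by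
    intro v
    rw [e1 v]
    refine (sq_add_le _ _).trans ?_
    have := e2 v
    linarith
  refine (integral_mono (b3.int2 _) (((b1.int2 _).const_mul _).add
    (((int_vec ν X h hh).const_mul _).const_mul _)) e5).trans ?_
  rw [integral_add' ((b1.int2 _).const_mul _) (((int_vec ν X h hh).const_mul _).const_mul _),
    integral_const_mul, integral_const_mul, integral_const_mul, nn_eq ν X h hh]
  have h1 : ∫ v, ‖∑ y ∈ Y, p (x - y) * F y v‖ ^ 2 ∂(Pn ν (Fin d → ℤ)) ≤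
      ((N' : ℕ) : ℝ) * (2 * (R : ℝ) + 1) ^ d * δ ^ 2 * (C ^ 2 * a) :=
    hinf.trans (mul_le_mul_of_nonneg_left hnF (by positivity))
  have h2 : 4 * C ^ 2 * nn ν X h ≤ 4 * (C ^ 2 * b) := by
    rw [mul_assoc]
    exact mul_le_mul_of_nonneg_left (mul_le_mul_of_nonneg_left hhb (sq_nonneg _)) (by norm_num)
  linarith

/-! ### approximation -/

/-- The constants of the approximation. -/
noncomputable def kk (C : ℝ) : ℕ → ℝ
  | 0 => 1
  | j + 1 => C * kk C j + C * ((2 * C) ^ j * 2)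

lemma kk_nonneg {C : ℝ} (hC : 0 ≤ C) (j : ℕ) : 0 ≤ kk C j := by
  induction j with
  | zero => unfold kk; norm_num
  | succ j ih => unfold kk; positivity

lemma pow_bd {C : ℝ} (hC : 0 ≤ C) (A Q : l2 (Fin d → ℤ) →L[ℂ] l2 (Fin d → ℤ)) (hA : ‖A‖ ≤ 2)
    (hQ : ‖Q‖ ≤ C) (u : l2 (Fin d → ℤ)) (hu : ‖u‖ ≤ 2) (j : ℕ) :
    ‖((A * Q) ^ j) u‖ ≤ (2 * C) ^ j * 2 := by
  induction j with
  | zero => simpa using hu
  | succ j ih =>
    have e1 : ((A * Q) ^ (j + 1)) u = A (Q (((A * Q) ^ j) u)) := by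
      rw [pow_succ']
      rfl
    rw [e1]
    calc ‖A (Q (((A * Q) ^ j) u))‖ ≤ ‖A‖ * (‖Q‖ * ‖((A * Q) ^ j) u‖) :=
          (A.le_opNorm _).trans (mul_le_mul_of_nonneg_left (Q.le_opNorm _) (norm_nonneg _))
      _ ≤ 2 * (C * ((2 * C) ^ j * 2)) :=
          mul_le_mul hA (mul_le_mul hQ ih (norm_nonneg _) hC) (by positivity) (by norm_num)
      _ = _ := by ring

lemma approx {C τ : ℝ} (hC : 0 ≤ C) (hτ : 0 ≤ τ) (A B Q : l2 (Fin d → ℤ) →L[ℂ] l2 (Fin d → ℤ))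
    (hA : ‖A‖ ≤ 1) (hB : ‖B‖ ≤ 2) (hAB : ‖A - B‖ ≤ τ) (hQ : ‖Q‖ ≤ C) (u u' : l2 (Fin d → ℤ))
    (hu : ‖u - u'‖ ≤ τ) (hu' : ‖u'‖ ≤ 2) (j : ℕ) :
    ‖((A * Q) ^ j) u - ((B * Q) ^ j) u'‖ ≤ τ * kk C j := by
  induction j with
  | zero => simpa [kk] using hu
  | succ j ih =>
    have e1 : ((A * Q) ^ (j + 1)) u - ((B * Q) ^ (j + 1)) u' =
        A (Q (((A * Q) ^ j) u - ((B * Q) ^ j) u')) + (A - B) (Q (((B * Q) ^ j) u')) := by
      rw [pow_succ', pow_succ']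
      simp only [mul_apply_eq_comp, map_sub, sub_apply]
      abel
    rw [e1]
    refine (norm_add_le _ _).trans ?_
    have h1 : ‖A (Q (((A * Q) ^ j) u - ((B * Q) ^ j) u'))‖ ≤ 1 * (C * (τ * kk C j)) :=
      ((A.le_opNorm _).trans (mul_le_mul_of_nonneg_left (Q.le_opNorm _) (norm_nonneg _))).trans
        (mul_le_mul hA (mul_le_mul hQ ih (norm_nonneg _) hC) (by positivity) zero_le_one)
    have h2 : ‖(A - B) (Q (((B * Q) ^ j) u'))‖ ≤ τ * (C * ((2 * C) ^ j * 2)) :=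
      (((A - B).le_opNorm _).trans
        (mul_le_mul_of_nonneg_left (Q.le_opNorm _) (norm_nonneg _))).trans
        (mul_le_mul hAB (mul_le_mul hQ (pow_bd hC B Q hB hQ u' hu' j) (norm_nonneg _) hC)
          (by positivity) hτ)
    unfold kk
    nlinarith

lemma dense_vec (u : l2 (Fin d → ℤ)) (τ : ℝ) (hτ : 0 < τ) :
    ∃ X : Finset (Fin d → ℤ), ‖u - vec X (fun x => u x)‖ ≤ τ := by
  have h1 : HasSum (fun z => (lp.single 2 z (u z) : l2 (Fin d → ℤ))) u :=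
    lp.hasSum_single (by simp) u
  have h2 := (Metric.tendsto_nhds.1 h1 τ hτ).exists
  obtain ⟨X, hX⟩ := h2
  refine ⟨X, ?_⟩
  rw [dist_comm, dist_eq_norm] at hX
  have e : vec X (fun x => u x) = ∑ z ∈ X, (lp.single 2 z (u z) : l2 (Fin d → ℤ)) := by
    unfold vec dl
    refine Finset.sum_congr rfl fun z _ => ?_
    rw [← lp.single_smul]
    congr 1
    simp
  rw [e]
  exact hX.le

theorem main : Pool.Agent.W792.WA.S_INF → Pool.Agent.W792.WA.S_FREEL := by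
  intro hI ν _ d R C n e he
  by_cases hC : 0 ≤ C
  swap
  · refine ⟨1, one_pos, fun Q hQ => ?_⟩
    exact absurd (loc_nonneg hQ) hC
  set B1 : ℝ := C ^ 2 * bb d R C n with hB1
  have hB1n : 0 ≤ B1 := mul_nonneg (sq_nonneg _) (bb_nonneg d R C n)
  set cc : ℝ := 2 * ((((n - 1) * (2 * R + 1) ^ d + (2 * R + 1) ^ d : ℕ) : ℝ) *
    (2 * (R : ℝ) + 1) ^ d * 4 * (C ^ 2 * aa d R C (n - 1))) +
    2 * (4 * (C ^ 2 * bb d R C (n - 1))) with hcc
  have hccn : 0 ≤ cc := by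
    have := aa_nonneg d R C (n - 1)
    have := bb_nonneg d R C (n - 1)
    positivity
  set δ : ℝ := min 1 (min (e ^ 2 / (4 * (B1 + 1))) (e / (4 * (cc + 1)))) with hδ
  have hδ0 : 0 < δ := by
    refine lt_min one_pos (lt_min ?_ ?_) <;> positivity
  have hδ1 : δ ≤ 1 := min_le_left _ _
  have hδ2 : δ ^ 2 ≤ δ := by nlinarith
  have hδB : B1 * δ ^ 2 ≤ e ^ 2 / 4 := by
    have h1 : δ ≤ e ^ 2 / (4 * (B1 + 1)) := (min_le_right _ _).trans (min_le_left _ _)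
    rw [le_div_iff₀ (by positivity)] at h1
    nlinarith
  have hδC : cc * δ ^ 2 ≤ e / 4 := by
    have h1 : δ ≤ e / (4 * (cc + 1)) := (min_le_right _ _).trans (min_le_right _ _)
    rw [le_div_iff₀ (by positivity)] at h1
    nlinarith
  refine ⟨δ, hδ0, ?_⟩
  intro Q hQ h0 m hm hmδ u hu
  set K : ℝ := kk C n with hK
  have hKn : 0 ≤ K := kk_nonneg hC n
  set τ : ℝ := min δ (min (1 / (K + 1)) (e / (4 * (K + 1) * (C + 1)))) with hτ
  have hτ0 : 0 < τ := by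
    refine lt_min hδ0 (lt_min ?_ ?_) <;> positivity
  have hτδ : τ ≤ δ := min_le_left _ _
  have hτ1 : τ * K ≤ 1 := by
    have h1 : τ ≤ 1 / (K + 1) := (min_le_right _ _).trans (min_le_left _ _)
    rw [le_div_iff₀ (by positivity)] at h1
    nlinarith
  have hτ2 : τ * K * (C + 1) ≤ e / 4 := by
    have h1 : τ ≤ e / (4 * (K + 1) * (C + 1)) := (min_le_right _ _).trans (min_le_right _ _)
    rw [le_div_iff₀ (by positivity)] at h1
    nlinarith [mul_nonneg hτ0.le (by linarith : (0 : ℝ) ≤ C + 1)]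
  have hτK : 0 ≤ τ * K := mul_nonneg hτ0.le hKn
  obtain ⟨p, hp⟩ := (Pool.Agent.W308.LL.Trig.main d).1 m τ hτ0
  obtain ⟨X, hX⟩ := dense_vec u τ hτ0
  have hp2 : ‖trig p‖ ≤ 2 := by
    have e1 : trig p = m + (trig p - m) := by abel
    rw [e1]
    exact (norm_add_le _ _).trans (by linarith)
  have hO := Pool.Agent.W918.LL.main d
  have hom : ‖opr m‖ ≤ 1 := (hO m m).2.1.trans hm
  have hop : ‖opr (trig p)‖ ≤ 2 := (hO (trig p) m).2.1.trans hp2
  have hsub : opr m - opr (trig p) = - opr (trig p - m) := by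
    have e1 := (hO (trig p - m) m).2.2.2.1
    rw [sub_add_cancel] at e1
    rw [e1]
    abel
  have hmp : ‖opr m - opr (trig p)‖ ≤ τ := by
    rw [hsub, norm_neg]
    exact (hO (trig p - m) m).2.1.trans hp
  have hpc : ∀ x, ‖p x‖ ≤ 2 * δ := by
    intro x
    have e1 : p x = opr (trig p) (dl 0) x := by
      rw [opr_coef, (Pool.Agent.W308.LL.Trig.main d).2, sub_zero]
    have e2 : UnitAddTorus.mFourierCoeff m x = opr m (dl 0) x := by
      rw [opr_coef, sub_zero]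
    have e3 : p x = UnitAddTorus.mFourierCoeff m x - ((opr m - opr (trig p)) (dl 0)) x := by
      rw [e1, e2, sub_apply, lp.coeFn_sub, Pi.sub_apply]
      ring
    rw [e3]
    have h1 : ‖((opr m - opr (trig p)) (dl 0)) x‖ ≤ τ := by
      refine (Pool.Agent.W74.WA.QL.norm_coord _ _).trans ?_
      refine ((opr m - opr (trig p)).le_opNorm _).trans ?_
      rw [norm_dl, mul_one]
      exact hmp
    exact (norm_sub_le _ _).trans (by linarith [hmδ x])
  have hu2 : ‖vec X (fun x => u x)‖ ≤ 2 := by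
    have e1 : vec X (fun x => u x) = u - (u - vec X (fun x => u x)) := by abel
    rw [e1]
    exact (norm_sub_le _ _).trans (by linarith)
  have hit := iter ν hI hQ h0 p hp2 δ hδ0.le hδ1 hpc X (fun x => u x) hu2
  have hap : ∀ v j, ‖((opr m * Q v) ^ j) u - ((opr (trig p) * Q v) ^ j) (vec X fun x => u x)‖ ≤
      τ * kk C j := fun v j =>
    approx hC hτ0.le (opr m) (opr (trig p)) (Q v) hom hop hmp (hQ.bound v) u _ hX hu2 j
  constructor
  · intro w hw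
    obtain ⟨hi, hb⟩ := fin1 ν hQ h0 (hit n) e he w hw
    by_cases hint : Integrable (fun v => inner ℂ w (Q v (((opr m * Q v) ^ n) u)))
        (Pn ν (Fin d → ℤ))
    swap
    · rw [integral_undef hint, norm_zero]
      exact he.le
    have e1 : ∫ v, inner ℂ w (Q v (((opr m * Q v) ^ n) u)) ∂(Pn ν (Fin d → ℤ)) =
        (∫ v, (inner ℂ w (Q v (((opr m * Q v) ^ n) u)) -
          inner ℂ w (Q v (((opr (trig p) * Q v) ^ n) (vec X fun x => u x))))
            ∂(Pn ν (Fin d → ℤ))) +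
        ∫ v, inner ℂ w (Q v (((opr (trig p) * Q v) ^ n) (vec X fun x => u x)))
          ∂(Pn ν (Fin d → ℤ)) := by
      rw [integral_sub hint hi]
      ring
    rw [e1]
    have h1 : ‖∫ v, (inner ℂ w (Q v (((opr m * Q v) ^ n) u)) -
          inner ℂ w (Q v (((opr (trig p) * Q v) ^ n) (vec X fun x => u x))))
            ∂(Pn ν (Fin d → ℤ))‖ ≤ C * (τ * K) := by
      have := norm_integral_le_of_norm_le_const (μ := Pn ν (Fin d → ℤ))
        (f := fun v => inner ℂ w (Q v (((opr m * Q v) ^ n) u)) -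
          inner ℂ w (Q v (((opr (trig p) * Q v) ^ n) (vec X fun x => u x)))) (C := C * (τ * K))
        (Filter.Eventually.of_forall fun v => by
          rw [← inner_sub_right, ← map_sub]
          refine (norm_inner_le_norm _ _).trans ?_
          calc ‖w‖ * ‖Q v (((opr m * Q v) ^ n) u -
              ((opr (trig p) * Q v) ^ n) (vec X fun x => u x))‖ ≤ 1 * (C * (τ * K)) :=
                mul_le_mul hw (((Q v).le_opNorm _).trans
                  (mul_le_mul (hQ.bound v) (hap v n) (norm_nonneg _) hC)) (norm_nonneg _)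
                  zero_le_one
            _ = _ := one_mul _)
      simpa using this
    refine (norm_add_le _ _).trans ?_
    have h2 : C ^ 2 / e * (bb d R C n * δ ^ 2) ≤ e / 4 := by
      rw [div_mul_eq_mul_div, div_le_iff₀ he]
      have : C ^ 2 * (bb d R C n * δ ^ 2) = B1 * δ ^ 2 := by rw [hB1]; ring
      rw [this]
      nlinarith
    nlinarith
  · intro hn x
    obtain ⟨j, rfl⟩ : ∃ j, n = j + 1 := ⟨n - 1, by omega⟩
    obtain ⟨hi, hb⟩ := fin2 ν hI hQ h0 p hp2 (2 * δ) (by linarith) hpc (hit j) x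
    have hfun : ∀ v, ((opr (trig p) * Q v) ^ (j + 1)) (vec X fun x => u x) =
        opr (trig p) (Q v (((opr (trig p) * Q v) ^ j) (vec X fun x => u x))) := by
      intro v
      rw [pow_succ']
      rfl
    have h1 : ∀ v, ‖(((opr m * Q v) ^ (j + 1)) u) x‖ ^ 2 ≤
        2 * ‖(opr (trig p) (Q v (((opr (trig p) * Q v) ^ j) (vec X fun x => u x)))) x‖ ^ 2 +
          2 * (τ * K) ^ 2 := by
      intro v
      have e1 : (((opr m * Q v) ^ (j + 1)) u) x =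
          (opr (trig p) (Q v (((opr (trig p) * Q v) ^ j) (vec X fun x => u x)))) x +
          (((opr m * Q v) ^ (j + 1)) u -
            ((opr (trig p) * Q v) ^ (j + 1)) (vec X fun x => u x)) x := by
        rw [lp.coeFn_sub, Pi.sub_apply, ← hfun v]
        ring
      rw [e1]
      refine (sq_add_le _ _).trans ?_
      have h2 : ‖(((opr m * Q v) ^ (j + 1)) u -
            ((opr (trig p) * Q v) ^ (j + 1)) (vec X fun x => u x)) x‖ ≤ τ * K :=
        (Pool.Agent.W74.WA.QL.norm_coord _ _).trans (hap v (j + 1))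
      have h3 := pow_le_pow_left₀ (norm_nonneg _) h2 2
      linarith
    have h2 : ∫ v, ‖(((opr m * Q v) ^ (j + 1)) u) x‖ ^ 2 ∂(Pn ν (Fin d → ℤ)) ≤
        ∫ v, (2 * ‖(opr (trig p) (Q v (((opr (trig p) * Q v) ^ j) (vec X fun x => u x)))) x‖ ^ 2 +
          2 * (τ * K) ^ 2) ∂(Pn ν (Fin d → ℤ)) :=
      integral_mono_of_nonneg (Filter.Eventually.of_forall fun v => by positivity)
        ((hi.const_mul _).add (integrable_const _)) (Filter.Eventually.of_forall h1)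
    refine h2.trans ?_
    rw [integral_add (hi.const_mul _) (integrable_const _), integral_const_mul, integral_const]
    simp only [probReal_univ, smul_eq_mul, one_mul]
    have h3 : 2 * (((j * (2 * R + 1) ^ d + (2 * R + 1) ^ d : ℕ) : ℝ) * (2 * (R : ℝ) + 1) ^ d *
        (2 * δ) ^ 2 * (C ^ 2 * aa d R C j)) + 2 * (4 * (C ^ 2 * (bb d R C j * δ ^ 2))) =
        cc * δ ^ 2 := by
      rw [hcc, Nat.add_sub_cancel]
      ring
    rw [h3] at hb
    have h4 : (τ * K) ^ 2 ≤ e / 4 := by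
      have h5 : τ * K ≤ e / 4 := by nlinarith
      nlinarith
    linarith

end Pool.Agent.W18.WA.Freel
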